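import Pool.Agent.R260.RD.Goal1
import Pool.Agent.R260.RD.Goal2

namespace Pool.Agent.Results.MP_247194_an.Basin

open Filter Topology Pool.Agent.R260.RD

/-- For `x_{n+1} = 1/x_{n-k} + 1/x_{n-l}`: the basin of `√2` is the whole open orthant iff
`(k+1)/d` and `(l+1)/d` are not both odd, `d = gcd(k+1,l+1)`. If they are both odd, every positive
solution converges to a solution of period `2d` that alternates between `φ r` and `2/φ r` on each
residue class `r` modulo `d`, and every positive initial vector has exactly one scaling (by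
`t ∈ (0,∞)^d`, acting on the entry `i` by multiplication or division by `t (i mod d)` according to
the parity of `⌊i/d⌋`) that lies in the basin. -/
theorem result :
    (∀ k l : ℕ, basin k l = orthant k l ↔ ¬ BothOdd k l) ∧
    (∀ k l : ℕ, BothOdd k l →
      (∀ v ∈ orthant k l, ∀ x, IsSol k l v x → ∃ φ : ℕ → ℝ, (∀ r, 0 < φ r) ∧
        ∀ r < Nat.gcd (k + 1) (l + 1),
          Tendsto (fun j => x (r + Nat.gcd (k + 1) (l + 1) * (2 * j))) atTop (𝓝 (φ r)) ∧
          Tendsto (fun j => x (r + Nat.gcd (k + 1) (l + 1) * (2 * j + 1))) atTop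
            (𝓝 (2 / φ r))) ∧
      (∀ v ∈ orthant k l, ∃ t : ℕ → ℝ, (∀ r, 0 < t r) ∧
        scale (Nat.gcd (k + 1) (l + 1)) t v ∈ basin k l ∧
        ∀ t' : ℕ → ℝ, (∀ r, 0 < t' r) → scale (Nat.gcd (k + 1) (l + 1)) t' v ∈ basin k l →
          ∀ r < Nat.gcd (k + 1) (l + 1), t' r = t r)) :=
  ⟨goal1, goal2⟩

end Pool.Agent.Results.MP_247194_an.Basin
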